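import Pool.Agent.Helper15.T5.Stmts

set_option autoImplicit false

/-!
MP_2f9829_co, module SERT: the tilt parameters are positive and the series of the moments converge.
-/

open Finset MeasureTheory Filter Topology

namespace Pool.Agent.Helper77.T5

open Pool.Agent.Helper15.T4 Pool.Agent.Helper46.T5 Pool.Agent.Helper15.T5

theorem tau5_sub_abs (k : ℕ) : |tau5 k - 1| ≤ 8 * (1 / 2) ^ (k + 1) := by
  have h : |(-(1 / 2 : ℝ)) ^ (k + 1)| = (1 / 2 : ℝ) ^ (k + 1) := by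
    rw [abs_pow, abs_neg, abs_of_pos (by norm_num : (0 : ℝ) < 1 / 2)]
  have hp : (0 : ℝ) ≤ (1 / 2 : ℝ) ^ (k + 1) := by positivity
  have h1 : tau5 k - 1 = 3 * (1 / 2 : ℝ) ^ (k + 1) + 5 * (-(1 / 2 : ℝ)) ^ (k + 1) := by
    unfold tau5; ring
  rw [h1]
  calc |3 * (1 / 2 : ℝ) ^ (k + 1) + 5 * (-(1 / 2 : ℝ)) ^ (k + 1)|
      ≤ |3 * (1 / 2 : ℝ) ^ (k + 1)| + |5 * (-(1 / 2 : ℝ)) ^ (k + 1)| := abs_add_le _ _
    _ = 8 * (1 / 2) ^ (k + 1) := by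
        rw [abs_mul, abs_mul, h, abs_of_nonneg hp]
        norm_num
        ring

theorem half_pow_le (k : ℕ) : ((1 : ℝ) / 2) ^ (k + 1) ≤ 1 / 2 := by
  calc ((1 : ℝ) / 2) ^ (k + 1) ≤ (1 / 2) ^ 1 :=
        pow_le_pow_of_le_one (by norm_num) (by norm_num) (by omega)
    _ = 1 / 2 := by norm_num

theorem quarter_pow_le (k : ℕ) (hk : 1 ≤ k) : ((1 : ℝ) / 2) ^ (k + 1) ≤ 1 / 4 := by
  calc ((1 : ℝ) / 2) ^ (k + 1) ≤ (1 / 2) ^ 2 :=
        pow_le_pow_of_le_one (by norm_num) (by norm_num) (by omega)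
    _ = 1 / 4 := by norm_num

theorem tau5_pos (k : ℕ) (hk : 1 ≤ k) : 0 < tau5 k := by
  have h : |(-(1 / 2 : ℝ)) ^ (k + 1)| = (1 / 2 : ℝ) ^ (k + 1) := by
    rw [abs_pow, abs_neg, abs_of_pos (by norm_num : (0 : ℝ) < 1 / 2)]
  have h1 : -((1 / 2 : ℝ) ^ (k + 1)) ≤ (-(1 / 2 : ℝ)) ^ (k + 1) := by
    rw [← h]; exact neg_abs_le _
  have h2 := quarter_pow_le k hk
  unfold tau5
  nlinarith

theorem bern (K : ℕ) : ∃ C : ℝ, 0 ≤ C ∧ ∀ d : ℝ, |d| ≤ 4 →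
    |(1 + d) ^ K - 1 - K * d| ≤ C * d ^ 2 := by
  induction K with
  | zero => exact ⟨0, le_rfl, fun d _ => by simp⟩
  | succ K ih =>
      obtain ⟨C, hC, h⟩ := ih
      refine ⟨5 * C + K, by positivity, fun d hd => ?_⟩
      have e : (1 + d) ^ (K + 1) - 1 - ((K + 1 : ℕ) : ℝ) * d =
          (1 + d) * ((1 + d) ^ K - 1 - K * d) + K * d ^ 2 := by
        push_cast; ring
      have h5 : |1 + d| ≤ 5 := by
        calc |1 + d| ≤ |(1 : ℝ)| + |d| := abs_add_le _ _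
          _ ≤ 5 := by rw [abs_one]; linarith
      rw [e]
      calc |(1 + d) * ((1 + d) ^ K - 1 - K * d) + K * d ^ 2|
          ≤ |(1 + d) * ((1 + d) ^ K - 1 - K * d)| + |(K : ℝ) * d ^ 2| := abs_add_le _ _
        _ = |1 + d| * |(1 + d) ^ K - 1 - K * d| + K * d ^ 2 := by
            rw [abs_mul, abs_of_nonneg (by positivity : (0 : ℝ) ≤ (K : ℝ) * d ^ 2)]
        _ ≤ 5 * (C * d ^ 2) + K * d ^ 2 := by
            gcongr
            exact h d hd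
        _ = (5 * C + K) * d ^ 2 := by ring

theorem lam_le (k : ℕ) : lam k ≤ 2 ^ k := by
  unfold lam
  rw [div_le_iff₀ (by positivity), pow_succ]
  have h : (0 : ℝ) ≤ 2 ^ k := by positivity
  have hk : (0 : ℝ) ≤ k := by positivity
  nlinarith [mul_nonneg h hk]

theorem lam_nonneg (k : ℕ) : 0 ≤ lam k := by
  unfold lam; positivity

theorem st_SERT : ST_SERT := by
  refine ⟨by unfold tau5; norm_num, tau5_pos, fun K => ?_⟩
  obtain ⟨C, hC, h⟩ := bern K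
  refine Summable.of_norm_bounded (g := fun k : ℕ => 16 * C * (1 / 2 : ℝ) ^ k)
    ((summable_geometric_of_lt_one (by norm_num) (by norm_num)).mul_left _) (fun k => ?_)
  have hd := tau5_sub_abs k
  have hd4 : |tau5 k - 1| ≤ 4 := by
    have := half_pow_le k
    linarith
  have h1 := h (tau5 k - 1) hd4
  have h2 : (1 : ℝ) + (tau5 k - 1) = tau5 k := by ring
  rw [h2] at h1
  have h3 : (tau5 k - 1) ^ 2 ≤ 64 * ((1 / 2 : ℝ) ^ (k + 1)) ^ 2 := by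
    calc (tau5 k - 1) ^ 2 = |tau5 k - 1| ^ 2 := (sq_abs _).symm
      _ ≤ (8 * (1 / 2) ^ (k + 1)) ^ 2 := by gcongr
      _ = 64 * ((1 / 2 : ℝ) ^ (k + 1)) ^ 2 := by ring
  have h4 : (2 : ℝ) ^ k * (64 * ((1 / 2 : ℝ) ^ (k + 1)) ^ 2) = 16 * (1 / 2 : ℝ) ^ k := by
    have : (2 : ℝ) ^ k * (1 / 2 : ℝ) ^ k = 1 := by
      rw [← mul_pow]; norm_num
    calc (2 : ℝ) ^ k * (64 * ((1 / 2 : ℝ) ^ (k + 1)) ^ 2)
        = 16 * ((2 : ℝ) ^ k * (1 / 2 : ℝ) ^ k) * (1 / 2 : ℝ) ^ k := by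
          rw [pow_succ]; ring
      _ = 16 * (1 / 2 : ℝ) ^ k := by rw [this]; ring
  rw [Real.norm_eq_abs, abs_mul, abs_of_nonneg (lam_nonneg k)]
  calc lam k * |tau5 k ^ K - 1 - K * (tau5 k - 1)|
      ≤ 2 ^ k * (C * (tau5 k - 1) ^ 2) := by
        exact mul_le_mul (lam_le k) h1 (abs_nonneg _) (by positivity)
    _ ≤ 2 ^ k * (C * (64 * ((1 / 2 : ℝ) ^ (k + 1)) ^ 2)) := by gcongr
    _ = C * ((2 : ℝ) ^ k * (64 * ((1 / 2 : ℝ) ^ (k + 1)) ^ 2)) := by ring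
    _ = 16 * C * (1 / 2 : ℝ) ^ k := by rw [h4]; ring

end Pool.Agent.Helper77.T5
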